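import Mathlib

set_option autoImplicit false

namespace Pool.Agent.Results.MP_020c1a_co.ScalarTwist

open Matrix

/-- A subset `F` of a group is a `p`-singular family if `g * h⁻¹` has order divisible by `p`
for all distinct `g, h` in `F`. -/
def IsPSingularFamily {G : Type*} [Group G] (p : ℕ) (F : Set G) : Prop :=
  ∀ g ∈ F, ∀ h ∈ F, g ≠ h → p ∣ orderOf (g * h⁻¹)

/-- A `p`-singular family is maximum if no `p`-singular family has more elements. -/
def IsMaximumPSingularFamily {G : Type*} [Group G] (p : ℕ) (F : Set G) : Prop :=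
  IsPSingularFamily p F ∧ ∀ F' : Set G, IsPSingularFamily p F' → F'.ncard ≤ F.ncard

/-- `F` is a double-translate `g P h` of a Sylow `p`-subgroup `P`. -/
def IsSylowDoubleTranslate {G : Type*} [Group G] (p : ℕ) (F : Set G) : Prop :=
  ∃ (P : Sylow p G) (g h : G), F = {x | ∃ s ∈ P, x = g * s * h}

section general

variable {G : Type*} [Group G] {p : ℕ} [hp : Fact p.Prime]

/-- If `z` is central of order coprime to `p` and `v ≠ 1` has `p`-power order then `p` divides the
order of `z * v`. -/
lemma dvd_orderOf_mul {z v : G} (hz : ∀ x : G, z * x = x * z) (hzo : (orderOf z).Coprime p)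
    {k : ℕ} (hv : v ^ p ^ k = 1) (hv1 : v ≠ 1) : p ∣ orderOf (z * v) := by
  by_contra hnd
  have hcop : (orderOf (z * v)).Coprime p := by
    rw [Nat.coprime_comm]
    exact (Nat.Prime.coprime_iff_not_dvd hp.out).2 hnd
  have hcomm : Commute z v := hz v
  -- raise to the power m * orderOf z
  have h1 : (z * v) ^ (orderOf (z * v) * orderOf z) = 1 := by
    rw [pow_mul, pow_orderOf_eq_one, one_pow]
  rw [hcomm.mul_pow, mul_comm (orderOf (z * v)) (orderOf z), pow_mul z, pow_orderOf_eq_one,
    one_pow, one_mul] at h1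
  have h2 : orderOf v ∣ orderOf z * orderOf (z * v) := orderOf_dvd_of_pow_eq_one h1
  have h3 : orderOf v ∣ p ^ k := orderOf_dvd_of_pow_eq_one hv
  have h4 : (orderOf z * orderOf (z * v)).Coprime (p ^ k) :=
    Nat.Coprime.pow_right k (Nat.Coprime.mul_left hzo hcop)
  have h5 : orderOf v = 1 := by
    have := Nat.dvd_gcd h2 h3
    rw [h4] at this
    exact Nat.dvd_one.1 this
  exact hv1 (orderOf_eq_one_iff.1 h5)

/-- The twisted family: replace one non-identity element `u` of the Sylow subgroup by `z * u`. -/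
def twist (P : Sylow p G) (z u : G) : Set G := {x | x ∈ P ∧ x ≠ u} ∪ {z * u}

lemma isPSingularFamily_twist (P : Sylow p G) {z u : G} (hz : ∀ x : G, z * x = x * z)
    (hzo : (orderOf z).Coprime p) (hu : u ∈ P) : IsPSingularFamily p (twist P z u) := by
  have key : ∀ v ∈ P, v ≠ 1 → ∀ w : G, (∀ x : G, w * x = x * w) → (orderOf w).Coprime p →
      p ∣ orderOf (w * v) := by
    intro v hv hv1 w hw hwo
    obtain ⟨k, hk⟩ := P.isPGroup' ⟨v, hv⟩
    refine dvd_orderOf_mul hw hwo (k := k) ?_ hv1
    have := congrArg Subtype.val hk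
    simpa using this
  intro g hg h hh hne
  rcases hg with ⟨hgP, hgu⟩ | hg
  · rcases hh with ⟨hhP, hhu⟩ | hh
    · have h1 := key (g * h⁻¹) (P.mul_mem hgP (P.inv_mem hhP))
        (by intro h0; exact hne (mul_inv_eq_one.1 h0)) 1 (by simp) (by simp)
      simpa using h1
    · rw [Set.mem_singleton_iff] at hh
      subst hh
      have h2 : g * (z * u)⁻¹ = z⁻¹ * (g * u⁻¹) := by
        rw [_root_.mul_inv_rev, ← mul_assoc]
        have : z⁻¹ * (g * u⁻¹) = (g * u⁻¹) * z⁻¹ := by
          have := hz (g * u⁻¹)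
          rw [inv_mul_eq_iff_eq_mul, ← mul_assoc, this, mul_assoc, mul_inv_cancel, mul_one]
        rw [this]
      rw [h2]
      refine key _ (P.mul_mem hgP (P.inv_mem hu)) ?_ z⁻¹ ?_ ?_
      · intro h0; exact hgu (mul_inv_eq_one.1 h0)
      · intro x
        rw [inv_mul_eq_iff_eq_mul, ← mul_assoc, hz x, mul_assoc, mul_inv_cancel, mul_one]
      · simpa using hzo
  · rw [Set.mem_singleton_iff] at hg
    subst hg
    rcases hh with ⟨hhP, hhu⟩ | hh
    · rw [mul_assoc]
      refine key _ (P.mul_mem hu (P.inv_mem hhP)) ?_ z hz hzo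
      intro h0; exact hhu (mul_inv_eq_one.1 h0).symm
    · rw [Set.mem_singleton_iff] at hh
      exact absurd hh.symm hne

omit hp in
lemma not_mem_of_central {P : Subgroup G} (hP : IsPGroup p P) {z u : G}
    (hzo : (orderOf z).Coprime p) (hz1 : z ≠ 1) (hz : ∀ x : G, z * x = x * z)
    {k : ℕ} (huk : u ^ p ^ k = 1) : z * u ∉ P := by
  intro hmem
  obtain ⟨l, hl⟩ := hP ⟨z * u, hmem⟩
  have hl' : (z * u) ^ p ^ l = 1 := by simpa using congrArg Subtype.val hl
  have h1 : (z * u) ^ p ^ (l + k) = 1 := by rw [pow_add, pow_mul, hl', one_pow]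
  have hcomm : Commute z u := hz u
  rw [hcomm.mul_pow] at h1
  have h2 : u ^ p ^ (l + k) = 1 := by rw [add_comm, pow_add, pow_mul, huk, one_pow]
  rw [h2, mul_one] at h1
  have h3 : orderOf z ∣ p ^ (l + k) := orderOf_dvd_of_pow_eq_one h1
  have h4 : orderOf z = 1 := Nat.Coprime.eq_one_of_dvd (Nat.Coprime.pow_right _ hzo) h3
  exact hz1 (orderOf_eq_one_iff.1 h4)

omit hp in
lemma ncard_twist [Finite G] (P : Sylow p G) {z u : G} (hz : ∀ x : G, z * x = x * z)
    (hzo : (orderOf z).Coprime p) (hz1 : z ≠ 1) (hu : u ∈ P) :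
    (twist P z u).ncard = Nat.card P := by
  obtain ⟨k, hk⟩ := P.isPGroup' ⟨u, hu⟩
  have huk : u ^ p ^ k = 1 := by simpa using congrArg Subtype.val hk
  have hnot : z * u ∉ (P : Subgroup G) := not_mem_of_central P.isPGroup' hzo hz1 hz huk
  have h1 : twist P z u = insert (z * u) (((P : Subgroup G) : Set G) \ {u}) := by
    ext x
    simp only [twist, Set.mem_union, Set.mem_ofPred_eq, Set.mem_singleton_iff, Set.mem_insert_iff,
      Set.mem_sdiff, SetLike.mem_coe]
    constructor
    · rintro (⟨h, h'⟩ | h)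
      · exact Or.inr ⟨h, h'⟩
      · exact Or.inl h
    · rintro (h | ⟨h, h'⟩)
      · exact Or.inr h
      · exact Or.inl ⟨h, h'⟩
  rw [h1, Set.ncard_insert_of_notMem (by intro h; exact hnot h.1) (Set.toFinite _),
    Set.ncard_sdiff_singleton_add_one (by exact hu) (Set.toFinite _)]
  rfl

omit hp in
lemma twist_not_doubleTranslate (P : Sylow p G) {z u : G} (hz : ∀ x : G, z * x = x * z)
    (hzo : (orderOf z).Coprime p) (hz1 : z ≠ 1) (hu : u ∈ P) (hu1 : u ≠ 1) :
    ¬ IsSylowDoubleTranslate p (twist P z u) := by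
  rintro ⟨Q, g, h, hF⟩
  have h1 : (1 : G) ∈ twist P z u := Or.inl ⟨P.one_mem, fun h => hu1 h.symm⟩
  have h2 : z * u ∈ twist P z u := Or.inr rfl
  rw [hF] at h1 h2
  obtain ⟨s, hs, hs'⟩ := h1
  obtain ⟨t, ht, ht'⟩ := h2
  -- h = s⁻¹ g⁻¹, so z * u = g (t s⁻¹) g⁻¹
  have h3 : h = s⁻¹ * g⁻¹ := by
    have : g * s * h = 1 := hs'.symm
    rw [← _root_.mul_inv_rev]
    exact eq_inv_of_mul_eq_one_right this
  have h4 : z * u = g * (t * s⁻¹) * g⁻¹ := by
    rw [ht', h3]; group
  obtain ⟨k, hk⟩ := P.isPGroup' ⟨u, hu⟩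
  have huk : u ^ p ^ k = 1 := by simpa using congrArg Subtype.val hk
  have hmem : t * s⁻¹ ∈ (Q : Subgroup G) := Q.mul_mem ht (Q.inv_mem hs)
  obtain ⟨l, hl⟩ := Q.isPGroup' ⟨t * s⁻¹, hmem⟩
  have hl' : (t * s⁻¹) ^ p ^ l = 1 := by simpa using congrArg Subtype.val hl
  have h5 : (z * u) ^ p ^ l = 1 := by
    rw [h4, conj_pow, hl']; group
  have h6 : (z * u) ^ p ^ (l + k) = 1 := by rw [pow_add, pow_mul, h5, one_pow]
  have hcomm : Commute z u := hz u
  rw [hcomm.mul_pow] at h6
  have h7 : u ^ p ^ (l + k) = 1 := by rw [add_comm, pow_add, pow_mul, huk, one_pow]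
  rw [h7, mul_one] at h6
  have h8 : orderOf z ∣ p ^ (l + k) := orderOf_dvd_of_pow_eq_one h6
  have h9 : orderOf z = 1 := Nat.Coprime.eq_one_of_dvd (Nat.Coprime.pow_right _ hzo) h8
  exact hz1 (orderOf_eq_one_iff.1 h9)

lemma isPSingularFamily_sylow (P : Sylow p G) :
    IsPSingularFamily p ((P : Subgroup G) : Set G) := by
  intro g hg h hh hne
  obtain ⟨k, hk⟩ := P.isPGroup' ⟨g * h⁻¹, P.mul_mem hg (P.inv_mem hh)⟩
  have hk' : (g * h⁻¹) ^ p ^ k = 1 := by simpa using congrArg Subtype.val hk
  have := dvd_orderOf_mul (z := (1 : G)) (v := g * h⁻¹) (by simp) (by simp) hk'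
    (by intro h0; exact hne (mul_inv_eq_one.1 h0))
  simpa using this

end general

section linear

variable (p : ℕ) [hp : Fact p.Prime] (K : Type*) [Field K] [Fintype K] [CharP K p]

/-- The transvection `1 + E₀₁` as an element of `GL n K`. -/
noncomputable def elemTrans {n : ℕ} (i j : Fin n) (hij : i ≠ j) : GL (Fin n) K :=
  GeneralLinearGroup.mkOfDetNeZero (Matrix.transvection i j (1 : K))
    (by rw [Matrix.det_transvection_of_ne i j hij]; exact one_ne_zero)

omit [Fintype K] in
lemma elemTrans_pow {n : ℕ} (i j : Fin n) (hij : i ≠ j) (m : ℕ) :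
    ((elemTrans K i j hij ^ m : GL (Fin n) K) : Matrix (Fin n) (Fin n) K) =
      Matrix.transvection i j (m : K) := by
  induction m with
  | zero => simp
  | succ m ih =>
    rw [pow_succ, Units.val_mul, ih]
    change Matrix.transvection i j (m : K) * Matrix.transvection i j (1 : K) = _
    rw [Matrix.transvection_mul_transvection_same i j hij]
    simp

omit [Fintype K] hp in
lemma elemTrans_pow_p {n : ℕ} (i j : Fin n) (hij : i ≠ j) : elemTrans K i j hij ^ p = 1 := by
  apply Units.ext
  rw [elemTrans_pow, CharP.cast_eq_zero]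
  simp

omit [Fintype K] in
lemma elemTrans_ne_one {n : ℕ} (i j : Fin n) (hij : i ≠ j) : elemTrans K i j hij ≠ 1 := by
  intro h
  have h2 : ((elemTrans K i j hij : GL (Fin n) K) : Matrix (Fin n) (Fin n) K) i j = 1 := by
    change Matrix.transvection i j (1 : K) i j = 1
    simp [Matrix.transvection, hij]
  rw [h] at h2
  simp [hij] at h2

/-- The order of a Sylow `p`-subgroup of `GL n K` is `q ^ (n (n - 1) / 2)`. -/
lemma card_sylow (n : ℕ) (P : Sylow p (GL (Fin n) K)) :
    Nat.card P = Fintype.card K ^ (n * (n - 1) / 2) := by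
  obtain ⟨f, hf⟩ := FiniteField.card K p
  have hq1 : 1 < Fintype.card K := Fintype.one_lt_card
  rw [P.card_eq_multiplicity, Matrix.card_GL_field]
  have hfac : ∀ i : Fin n, (Fintype.card K ^ n - Fintype.card K ^ (i : ℕ)).factorization p
      = f * i := by
    intro i
    have h1 : Fintype.card K ^ n - Fintype.card K ^ (i : ℕ) =
        Fintype.card K ^ (i : ℕ) * (Fintype.card K ^ (n - i) - 1) := by
      rw [Nat.mul_sub, ← pow_add, mul_one, Nat.add_sub_cancel' i.2.le]
    have hpos : 0 < n - (i : ℕ) := Nat.sub_pos_of_lt i.2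
    have h2 : 1 < Fintype.card K ^ (n - (i : ℕ)) := Nat.one_lt_pow hpos.ne' hq1
    rw [h1, Nat.factorization_mul (by positivity) (by omega)]
    have h3 : (Fintype.card K ^ (n - (i : ℕ)) - 1).factorization p = 0 := by
      apply Nat.factorization_eq_zero_of_not_dvd
      intro hd
      have h4 : p ∣ Fintype.card K ^ (n - (i : ℕ)) := by
        rw [hf.2]
        exact dvd_pow (dvd_pow_self p f.2.ne') hpos.ne'
      have h5 : p ∣ 1 := by
        have := Nat.dvd_sub h4 hd
        rwa [Nat.sub_sub_self h2.le] at this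
      exact hp.out.one_lt.ne' (Nat.dvd_one.1 h5)
    rw [Finsupp.add_apply, h3, add_zero, hf.2, ← pow_mul, Nat.Prime.factorization_pow hp.out]
    simp
  rw [Nat.factorization_prod_apply (by
    intro i _
    have hlt : Fintype.card K ^ (i : ℕ) < Fintype.card K ^ n := Nat.pow_lt_pow_right hq1 i.2
    omega)]
  simp_rw [hfac]
  rw [← Finset.mul_sum, Fin.sum_univ_eq_sum_range (fun i => i), Finset.sum_range_id, pow_mul, hf.2]

end linear

/-- For every finite field `K` of characteristic `p` with more than two elements and every `n ≥ 2`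
there is a `p`-singular family in `GL n K` with `|K| ^ (n (n - 1) / 2)` elements (the order of
a Sylow `p`-subgroup) which is not a double-translate of a Sylow `p`-subgroup. -/
theorem exists_family (p : ℕ) [Fact p.Prime] (K : Type*) [Field K] [Fintype K] [CharP K p]
    (hK : 2 < Fintype.card K) (n : ℕ) (hn : 2 ≤ n) :
    ∃ F : Set (GL (Fin n) K), IsPSingularFamily p F ∧
      F.ncard = Fintype.card K ^ (n * (n - 1) / 2) ∧ ¬ IsSylowDoubleTranslate p F := by
  classical
  have hp : p.Prime := Fact.out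
  -- indices
  let i : Fin n := ⟨0, by omega⟩
  let j : Fin n := ⟨1, by omega⟩
  have hij : i ≠ j := by
    intro h
    have := congrArg Fin.val h
    simp [i, j] at this
  let u : GL (Fin n) K := elemTrans K i j hij
  have hup : u ^ p = 1 := elemTrans_pow_p p K i j hij
  have hu1 : u ≠ 1 := elemTrans_ne_one K i j hij
  -- a Sylow subgroup containing u
  have hpg : IsPGroup p (Subgroup.zpowers u) := by
    apply IsPGroup.of_card (n := 1)
    rw [Nat.card_zpowers, pow_one]
    exact orderOf_eq_prime hup hu1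
  obtain ⟨P, hP⟩ := hpg.exists_le_sylow
  have huP : u ∈ P := hP (Subgroup.mem_zpowers u)
  -- a nontrivial scalar
  have hKu : 1 < Fintype.card Kˣ := by
    rw [Fintype.card_units]; omega
  obtain ⟨w, hw⟩ := Fintype.exists_ne_of_one_lt_card hKu 1
  let z : GL (Fin n) K := GeneralLinearGroup.scalar (Fin n) w
  have hz : ∀ x : GL (Fin n) K, z * x = x * z := fun x => GeneralLinearGroup.scalar_commute w x
  have hz1 : z ≠ 1 := by
    intro h
    apply hw
    have h1 := congrArg (fun g : GL (Fin n) K => (g : Matrix (Fin n) (Fin n) K) i i) h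
    apply Units.ext
    simpa [z] using h1
  have hzo : (orderOf z).Coprime p := by
    have h1 : orderOf z ∣ Fintype.card K - 1 := by
      apply orderOf_dvd_of_pow_eq_one
      have : w ^ (Fintype.card K - 1) = 1 := by
        rw [← Fintype.card_units]; exact pow_card_eq_one
      change (GeneralLinearGroup.scalar (Fin n) w) ^ _ = 1
      rw [← map_pow, this, map_one]
    refine Nat.Coprime.coprime_dvd_left h1 ?_
    rw [Nat.coprime_comm, Nat.Prime.coprime_iff_not_dvd hp]
    intro hd
    obtain ⟨f, hf⟩ := FiniteField.card K p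
    have h2 : p ∣ Fintype.card K := by rw [hf.2]; exact dvd_pow_self p f.2.ne'
    have h3 : p ∣ 1 := by
      have := Nat.dvd_sub h2 hd
      rwa [Nat.sub_sub_self (by omega)] at this
    exact hp.one_lt.ne' (Nat.dvd_one.1 h3)
  have hF1 : IsPSingularFamily p (twist P z u) := isPSingularFamily_twist P hz hzo huP
  have hF2 : (twist P z u).ncard = Nat.card P := ncard_twist P hz hzo hz1 huP
  have hF3 : ¬ IsSylowDoubleTranslate p (twist P z u) :=
    twist_not_doubleTranslate P hz hzo hz1 huP hu1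
  refine ⟨twist P z u, hF1, ?_, hF3⟩
  rw [hF2, card_sylow p K n P]

/-- For every prime `p`, every finite field `K` of characteristic `p` with `q > 2` elements and
every `n ≥ 2`, the proposed description of the maximum `p`-singular families of `GL n K` fails:
either there is a `p`-singular family with more than `q ^ (n (n - 1) / 2)` elements, or there is
a maximum `p`-singular family which is not a double-translate of a Sylow `p`-subgroup. -/
theorem result (p : ℕ) [Fact p.Prime] (K : Type*) [Field K] [Fintype K] [CharP K p]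
    (hK : 2 < Fintype.card K) (n : ℕ) (hn : 2 ≤ n) :
    (∃ F : Set (GL (Fin n) K), IsPSingularFamily p F ∧
      Fintype.card K ^ (n * (n - 1) / 2) < F.ncard) ∨
    (∃ F : Set (GL (Fin n) K), IsMaximumPSingularFamily p F ∧ ¬ IsSylowDoubleTranslate p F) := by
  classical
  obtain ⟨F, hF1, hF2, hF3⟩ := exists_family p K hK n hn
  by_cases hmax : ∃ F' : Set (GL (Fin n) K), IsPSingularFamily p F' ∧ F.ncard < F'.ncard
  · left
    obtain ⟨F', hF'1, hF'2⟩ := hmax
    exact ⟨F', hF'1, by rwa [hF2] at hF'2⟩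
  · right
    push_neg at hmax
    exact ⟨F, ⟨hF1, hmax⟩, hF3⟩

end Pool.Agent.Results.MP_020c1a_co.ScalarTwist
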